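import Pool.Agent.Q275.GX.Bas

set_option autoImplicit false

/-!
# Project GX: the asymptotic formula on average
-/

namespace Pool.Agent.Q275.GX

open MeasureTheory Filter Topology Set
open Pool.Agent.Q260.GX
open Pool.Agent.Q260.GM (pk sx LL kk h0 kT kk_cont kk_nonneg kk_le kk_one_int ev_pos ev_L)
open Pool.Agent.Y749.Rig (nT)

variable {G : Dat}

/-- lower bound for the primes -/
theorem SS_low (h1 : S_T1b) (h2 : S_KIL) (hG : G.Good) (hC : G.Crude) {a : ℝ} (ha : 0 < a) (ha1 : a * G.n ≤ 1)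
    {ε : ℝ} (hε : 0 < ε) : ∀ᶠ κ : ℝ in 𝓝[>] 0,
      ((G.n / a - G.n ^ 2) / 2 - ε) * (κ * LL κ ^ 2) ≤ G.SS κ (a / LL κ) := by
  have hpi := Real.pi_pos
  have hK := h2 G hG hC a (kk 1) 5 (ε / 2) ha ha1 (kk_cont 1) (kk_nonneg 1)
    (fun y => (kk_le 1 y).trans (le_of_eq (by norm_num))) kk_one_int.1 (by positivity)
  rw [kk_one_int.2] at hK
  filter_upwards [hK, (h1 G hG hC a a ha le_rfl).1 (ε / 2) (by positivity), ev_pos, ev_L 1]
    with κ k1 k2 hκ hL
  have hLp : 0 < LL κ := by linarith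
  have hQ : 0 < κ * LL κ ^ 2 := by positivity
  have k3 := (abs_le.1 (k2 a ⟨le_rfl, le_rfl⟩)).1
  have k4 : (G.n / a - G.n ^ 2) / 2 - ε / 2 ≤ 2 / Real.pi * G.KI (kk 1) κ a := by
    have h1 := mul_le_mul_of_nonneg_left k1 (show 0 ≤ 2 / Real.pi by positivity)
    refine le_trans ?_ h1
    have e : 2 / Real.pi * ((G.n / a - G.n ^ 2) / 4 * Real.pi - ε / 2) =
        (G.n / a - G.n ^ 2) / 2 - ε / Real.pi := by
      field_simp
      ring
    rw [e]
    have : ε / Real.pi ≤ ε / 2 := div_le_div_of_nonneg_left hε.le (by norm_num) (by linarith [Real.pi_gt_three])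
    linarith
  have k5 : ((G.n / a - G.n ^ 2) / 2 - ε / 2) * (κ * LL κ ^ 2) ≤
      2 / Real.pi * (κ * LL κ ^ 2 * G.KI (kk 1) κ a) := by
    have e : 2 / Real.pi * (κ * LL κ ^ 2 * G.KI (kk 1) κ a) =
      2 / Real.pi * G.KI (kk 1) κ a * (κ * LL κ ^ 2) := by ring
    rw [e]
    exact mul_le_mul_of_nonneg_right k4 hQ.le
  have e : ((G.n / a - G.n ^ 2) / 2 - ε) * (κ * LL κ ^ 2) =
    ((G.n / a - G.n ^ 2) / 2 - ε / 2) * (κ * LL κ ^ 2) - ε / 2 * (κ * LL κ ^ 2) := by ring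
  rw [e]
  linarith

lemma SS_ess (h1 : S_T1b) (h2 : S_KIL) (h3 : S_PAIR) (h4 : S_SSR) (hG : G.Good) (hC : G.Crude) (hE : G.EssM)
    {ε : ℝ} (hε : 0 < ε) :
    ∃ a0 : ℝ, 0 < a0 ∧ ∀ a : ℝ, 0 < a → a ≤ a0 → ∀ᶠ κ : ℝ in 𝓝[>] 0,
      |2 * a * (G.SS κ (a / LL κ) / (κ * LL κ ^ 2)) - G.n| ≤ ε := by
  have hn := hG.n_pos
  obtain ⟨β, hβ, h5⟩ := hE (ε / 20) (by positivity)
  obtain ⟨a1, ha1, h6⟩ := (h3 G hG hC).2 (G.n + ε / 20) β hβ h5 (ε / 20) (by positivity)
  refine ⟨min (a1 / 3) (min (1 / G.n) (ε / (4 * G.n ^ 2))), by positivity, fun a ha haa => ?_⟩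
  have haa1 : 3 * a ≤ a1 := by
    have := haa.trans (min_le_left _ _)
    linarith
  have ha1' : a * G.n ≤ 1 := by
    have := haa.trans ((min_le_right _ _).trans (min_le_left _ _))
    rwa [le_div_iff₀ (by linarith)] at this
  have ha1'' : a ≤ 1 := by nlinarith
  have haε : a * G.n ^ 2 ≤ ε / 4 := by
    have := haa.trans ((min_le_right _ _).trans (min_le_right _ _))
    rw [le_div_iff₀ (by positivity)] at this
    linarith
  filter_upwards [h4 G hG hC (G.n + ε / 20 + ε / 20) a1 (by linarith) h6 a (ε / 8) ha ha1' haa1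
    (by positivity), SS_low h1 h2 hG hC ha ha1' (ε := ε / 8) (by positivity), ev_pos, ev_L 1]
    with κ k1 k2 hκ hL
  have hLp : 0 < LL κ := by linarith
  have hQ : 0 < κ * LL κ ^ 2 := by positivity
  set S : ℝ := G.SS κ (a / LL κ) / (κ * LL κ ^ 2) with hS
  have k1' : S ≤ (G.n / a - G.n ^ 2) / 2 + 5 * (G.n + ε / 20 + ε / 20 - G.n) / (4 * a) + ε / 8 := by
    rw [hS, div_le_iff₀ hQ]; exact k1
  have k2' : (G.n / a - G.n ^ 2) / 2 - ε / 8 ≤ S := by rw [hS, le_div_iff₀ hQ]; exact k2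
  have m1 := mul_le_mul_of_nonneg_left k1' (show 0 ≤ 2 * a by positivity)
  have m2 := mul_le_mul_of_nonneg_left k2' (show 0 ≤ 2 * a by positivity)
  have e1 : 2 * a * ((G.n / a - G.n ^ 2) / 2 + 5 * (G.n + ε / 20 + ε / 20 - G.n) / (4 * a) + ε / 8) =
    G.n - a * G.n ^ 2 + ε / 4 + a * (ε / 4) := by field_simp; ring
  have e2 : 2 * a * ((G.n / a - G.n ^ 2) / 2 - ε / 8) = G.n - a * G.n ^ 2 - a * (ε / 4) := by
    field_simp; ring
  rw [e1] at m1
  rw [e2] at m2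
  have : a * (ε / 4) ≤ 1 * (ε / 4) := mul_le_mul_of_nonneg_right ha1'' (by positivity)
  have h7 : 0 ≤ a * G.n ^ 2 := by positivity
  rw [abs_le]
  constructor <;> linarith

/-- the dilated measure on the side of the primes, normalised by the degree -/
noncomputable def md (G : Dat) (p : ℝ × ℝ) : Measure ℝ :=
  ENNReal.ofReal (1 / (G.n * p.1)) • Measure.map (fun y => y / p.1) (nk G p.2)

lemma md_integral (hG : G.Good) (b κ : ℝ) (hb : 0 < b) {f : ℝ → ℝ} (hf : Continuous f) :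
    ∫ y, f y ∂(md G (b, κ)) = 1 / (G.n * b) * ∫ y, f (y / b) ∂(nk G κ) := by
  have hn : 0 < G.n := by linarith [hG.n_pos]
  unfold md
  rw [integral_smul_measure, integral_map (by fun_prop) hf.aestronglyMeasurable,
    ENNReal.toReal_ofReal (by positivity), smul_eq_mul]

lemma md_integrable (b κ : ℝ) (_hb : 0 < b) {f : ℝ → ℝ} (hf : Continuous f)
    (h : Integrable (fun y => f (y / b)) (nk G κ)) : Integrable f (md G (b, κ)) := by
  unfold md
  refine Integrable.smul_measure ?_ ENNReal.ofReal_ne_top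
  rw [integrable_map_measure hf.aestronglyMeasurable (by fun_prop)]
  exact h

lemma md_neg (b κ : ℝ) (hb : 0 < b) : md G (b, κ) (Iio 0) = 0 := by
  unfold md
  rw [Measure.smul_apply, Measure.map_apply (by fun_prop) measurableSet_Iio]
  have : (fun y : ℝ => y / b) ⁻¹' Iio 0 = Iio 0 := by
    ext y
    simp only [mem_preimage, mem_Iio]
    constructor
    · intro h
      by_contra h2
      push Not at h2
      have : 0 ≤ y / b := div_nonneg h2 hb.le
      linarith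
    · intro h
      exact div_neg_of_neg_of_pos h hb
  show ENNReal.ofReal (1 / (G.n * b)) • (nk G κ) ((fun y : ℝ => y / b) ⁻¹' Iio 0) = 0
  rw [this, nk_neg, smul_zero]

lemma md_Icc (hG : G.Good) (b κ : ℝ) (hb : 0 < b) (hκ : 0 < κ) (hL : 0 < LL κ) {c d : ℝ} (hc : 0 < c)
    (hcd : c ≤ d) :
    (md G (b, κ)).real (Icc c d) =
      (∫ u in (c * b * LL κ)..(d * b * LL κ), G.Dl κ u ^ 2) / (G.n * b * (κ * LL κ ^ 2)) := by
  have hn : 0 < G.n := by linarith [hG.n_pos]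
  unfold md
  rw [measureReal_def, Measure.smul_apply, Measure.map_apply (by fun_prop) measurableSet_Icc]
  have : (fun y : ℝ => y / b) ⁻¹' Icc c d = Icc (c * b) (d * b) := by
    ext y
    simp only [mem_preimage, mem_Icc]
    rw [le_div_iff₀ hb, div_le_iff₀ hb]
  show (ENNReal.ofReal (1 / (G.n * b)) • (nk G κ) ((fun y : ℝ => y / b) ⁻¹' Icc c d)).toReal = _
  rw [this, smul_eq_mul, ENNReal.toReal_mul, ENNReal.toReal_ofReal (by positivity)]
  have h1 := nk_Icc hG hκ hL (c := c * b) (d := d * b) (by positivity) (mul_le_mul_of_nonneg_right hcd hb.le)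
  rw [measureReal_def] at h1
  rw [h1]
  field_simp

/-- **the asymptotic formula on average** -/
theorem av_asymp (h1 : S_T1b) (h2 : S_KIL) (h3 : S_PAIR) (h4 : S_SSR) (hG : G.Good) (hC : G.Crude)
    (hE : G.EssM) {ε : ℝ} (hε : 0 < ε) :
    ∃ b0 : ℝ, 1 ≤ b0 ∧ ∀ b : ℝ, b0 ≤ b → ∀ᶠ κ : ℝ in 𝓝[>] 0,
      (G.n - ε) * b * (κ * LL κ ^ 2) ≤ ∫ u in (0 : ℝ)..(b * LL κ), G.Dl κ u ^ 2 ∧
      ∫ u in (0 : ℝ)..(b * LL κ), G.Dl κ u ^ 2 ≤ (G.n + ε) * b * (κ * LL κ ^ 2) := by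
  have hn : 0 < G.n := by linarith [hG.n_pos]
  have hn1 := hG.n_pos
  set l : Filter (ℝ × ℝ) := (atTop : Filter ℝ).curry (𝓝[>] (0 : ℝ)) with hl
  have hev : ∀ P : ℝ → ℝ → Prop, (∀ᶠ b in (atTop : Filter ℝ), ∀ᶠ κ in 𝓝[>] (0 : ℝ), P b κ) →
      ∀ᶠ p in l, P p.1 p.2 := fun P h => Filter.eventually_curry_iff.2 h
  have hpos : ∀ᶠ b in (atTop : Filter ℝ), ∀ᶠ κ in 𝓝[>] (0 : ℝ), 0 < b ∧ 0 < κ ∧ 1 ≤ LL κ := by
    filter_upwards [eventually_gt_atTop 0] with b hb
    filter_upwards [ev_pos, ev_L 1] with κ h1 h2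
    exact ⟨hb, h1, h2⟩
  have hexp : ∀ s : ℝ, Continuous fun y : ℝ => Real.exp (-(s * y)) := fun s => by fun_prop
  have hexp2 : ∀ s b κ : ℝ, 0 < s → 0 < b → 0 < κ → 1 ≤ LL κ →
      Integrable (fun y => Real.exp (-(s * (y / b)))) (nk G κ) ∧
      ∫ y, Real.exp (-(s * (y / b))) ∂(nk G κ) = G.SS κ (s / b / 2 / LL κ) / (κ * LL κ ^ 2) := by
    intro s b κ hs hb hκ hL
    have h1 := nk_exp hG hκ (by linarith) (a := s / b) (by positivity)
    have e : (fun y : ℝ => Real.exp (-(s * (y / b)))) = fun y => Real.exp (-(s / b * y)) := by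
      funext y
      congr 2
      ring
    rw [e]
    exact h1
  have hK := fun (c d : ℝ) (hc : 0 < c) (hcd : c < d) =>
    Pool.Agent.Q128.GM.karamata (l := l) (m := md G) (w := fun _ => (1 : ℝ)) continuous_const
    (fun _ => zero_le_one) (fun _ => le_rfl)
    (hev (fun b κ => md G (b, κ) (Iio 0) = 0) (by
      filter_upwards [eventually_gt_atTop 0] with b hb
      exact Eventually.of_forall fun κ => md_neg b κ hb))
    (hev (fun b κ => ∀ a : ℝ, 0 < a → Integrable (fun y : ℝ => Real.exp (-(a * y))) (md G (b, κ))) (by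
      filter_upwards [hpos] with b h1
      filter_upwards [h1] with κ h2 a ha
      exact md_integrable b κ h2.1 (hexp a) (hexp2 a b κ ha h2.1 h2.2.1 h2.2.2).1))
    (fun s hs => by
      have e1 : ∫ y in Ioi (0 : ℝ), Real.exp (-(s * y)) * 1 = 1 / s := by
        have : (fun y : ℝ => Real.exp (-(s * y)) * 1) = fun y => Real.exp (-s * y) := by
          funext y
          rw [mul_one, neg_mul]
        rw [this, integral_exp_mul_Ioi (by linarith)]
        simp only [mul_zero, Real.exp_zero]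
        field_simp
      rw [e1, Metric.tendsto_nhds]
      intro ε' hε'
      refine hev (fun b κ => dist (∫ y, Real.exp (-(s * y)) ∂(md G (b, κ))) (1 / s) < ε') ?_
      obtain ⟨a0, ha0, h5⟩ := SS_ess h1 h2 h3 h4 hG hC hE (ε := ε' * s / 2 * G.n) (by positivity)
      filter_upwards [eventually_ge_atTop (s / (2 * a0)), eventually_gt_atTop 0] with b hb hb0
      have ha : s / b / 2 ≤ a0 := by
        rw [div_le_iff₀ (by positivity)] at hb
        rw [div_div, div_le_iff₀ (by positivity)]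
        linarith
      filter_upwards [h5 (s / b / 2) (by positivity) ha, ev_pos, ev_L 1] with κ h2 hκ hL
      rw [md_integral hG b κ hb0 (hexp s), (hexp2 s b κ hs hb0 hκ hL).2, Real.dist_eq]
      set S : ℝ := G.SS κ (s / b / 2 / LL κ) / (κ * LL κ ^ 2) with hS
      have e2 : 1 / (G.n * b) * S - 1 / s = 1 / (s * G.n) * (2 * (s / b / 2) * S - G.n) := by field_simp
      rw [e2, abs_mul, abs_of_pos (by positivity)]
      calc 1 / (s * G.n) * |2 * (s / b / 2) * S - G.n| ≤ 1 / (s * G.n) * (ε' * s / 2 * G.n) :=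
            mul_le_mul_of_nonneg_left h2 (by positivity)
        _ = ε' / 2 := by field_simp
        _ < ε' := by linarith) hc hcd
  -- the parameters
  set c : ℝ := min (1 / 2) (ε / (20 * G.n)) with hc
  have hc0 : 0 < c := by positivity
  have hc1 : c ≤ 1 / 2 := min_le_left _ _
  have hcε : c * G.n ≤ ε / 20 := by
    have : c ≤ ε / (20 * G.n) := min_le_right _ _
    rw [le_div_iff₀ (by positivity)] at this
    linarith
  have h5 := (Metric.tendsto_nhds.1 (hK c 1 hc0 (by linarith))) (ε / (4 * G.n)) (by positivity)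
  have h6 : ∀ᶠ b in (atTop : Filter ℝ), ∀ᶠ κ in 𝓝[>] (0 : ℝ),
      dist ((md G (b, κ)).real (Icc c 1)) (∫ _ in c..1, (1 : ℝ)) < ε / (4 * G.n) :=
    Filter.eventually_curry_iff.1 h5
  obtain ⟨b1, hb1⟩ := h6.exists_forall_of_atTop
  obtain ⟨a0, ha0, h7⟩ := SS_ess h1 h2 h3 h4 hG hC hE (ε := 1) one_pos
  refine ⟨max (max 1 b1) (max (1 / c) (1 / (2 * c * a0))), (le_max_left _ _).trans (le_max_left _ _), fun b hb => ?_⟩
  have hb1' : 1 ≤ b := ((le_max_left _ _).trans (le_max_left _ _)).trans hb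
  have hbb : b1 ≤ b := ((le_max_right _ _).trans (le_max_left _ _)).trans hb
  have hbc : 1 / c ≤ b := ((le_max_left _ _).trans (le_max_right _ _)).trans hb
  have hba : 1 / (2 * c * a0) ≤ b := ((le_max_right _ _).trans (le_max_right _ _)).trans hb
  have hb0 : 0 < b := by linarith
  have hcb : 1 ≤ c * b := by
    rw [div_le_iff₀ hc0] at hbc
    linarith
  set a : ℝ := 1 / (2 * (c * b)) with ha
  have ha0' : 0 < a := by positivity
  have haa : a ≤ a0 := by
    rw [ha, div_le_iff₀ (by positivity)]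
    rw [div_le_iff₀ (by positivity)] at hba
    linarith
  filter_upwards [hb1 b hbb, h7 a ha0' haa, ev_pos, ev_L 1] with κ k1 k2 hκ hL
  have hLp : 0 < LL κ := by linarith
  have hQ : 0 < κ * LL κ ^ 2 := by positivity
  rw [md_Icc hG b κ hb0 hκ hLp hc0 (by linarith), intervalIntegral.integral_const, smul_eq_mul, mul_one, one_mul,
    Real.dist_eq] at k1
  set W : ℝ := ∫ u in (c * b * LL κ)..(b * LL κ), G.Dl κ u ^ 2 with hW
  have hbQ : 0 < b * (κ * LL κ ^ 2) := by positivity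
  have hnbQ : 0 < G.n * b * (κ * LL κ ^ 2) := by positivity
  rw [abs_lt] at k1
  have k1n : G.n * (ε / (4 * G.n)) = ε / 4 := by field_simp
  have w1 : (G.n - c * G.n - ε / 4) * (b * (κ * LL κ ^ 2)) ≤ W := by
    have h8 : (1 - c - ε / (4 * G.n)) * (G.n * b * (κ * LL κ ^ 2)) ≤ W := by
      rw [← le_div_iff₀ hnbQ]; linarith [k1.1]
    have e : (1 - c - ε / (4 * G.n)) * (G.n * b * (κ * LL κ ^ 2)) =
        (G.n - c * G.n - G.n * (ε / (4 * G.n))) * (b * (κ * LL κ ^ 2)) := by ring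
    rw [e, k1n] at h8
    exact h8
  have w2 : W ≤ (G.n - c * G.n + ε / 4) * (b * (κ * LL κ ^ 2)) := by
    have h8 : W ≤ (1 - c + ε / (4 * G.n)) * (G.n * b * (κ * LL κ ^ 2)) := by
      rw [← div_le_iff₀ hnbQ]; linarith [k1.2]
    have e : (1 - c + ε / (4 * G.n)) * (G.n * b * (κ * LL κ ^ 2)) =
        (G.n - c * G.n + G.n * (ε / (4 * G.n))) * (b * (κ * LL κ ^ 2)) := by ring
    rw [e, k1n] at h8
    exact h8
  -- the small part
  have hle : (0 : ℝ) ≤ c * b * LL κ := by positivity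
  have hle2 : (0 : ℝ) ≤ b * LL κ := by positivity
  have w3 : ∫ u in (0 : ℝ)..(c * b * LL κ), G.Dl κ u ^ 2 ≤ 6 * (c * G.n) * (b * (κ * LL κ ^ 2)) := by
    have m1 : ∫ u in (0 : ℝ)..(c * b * LL κ), G.Dl κ u ^ 2 ≤ 3 * G.SS κ (a / LL κ) :=
      int_le_SS hG hκ hLp ha0' (by positivity) (by rw [ha]; apply le_of_eq; field_simp)
    have m2 : G.SS κ (a / LL κ) ≤ 2 * (c * G.n) * (b * (κ * LL κ ^ 2)) := by
      have h4 := (abs_le.1 k2).2
      have h5 : G.SS κ (a / LL κ) / (κ * LL κ ^ 2) ≤ (G.n + 1) * (c * b) := by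
        have e : 2 * a = 1 / (c * b) := by rw [ha]; field_simp
        rw [e, sub_le_iff_le_add, one_div, inv_mul_le_iff₀ (by positivity)] at h4
        linarith
      rw [div_le_iff₀ hQ] at h5
      have h6 : (G.n + 1) * (c * b) * (κ * LL κ ^ 2) ≤ (G.n + G.n) * (c * b) * (κ * LL κ ^ 2) := by
        gcongr
      linarith
    linarith
  rw [← intervalIntegral.integral_add_adjacent_intervals (Dl_sq_ii hG hκ le_rfl hle)
    (Dl_sq_ii hG hκ hle hle2)]
  have w0 : 0 ≤ ∫ u in (0 : ℝ)..(c * b * LL κ), G.Dl κ u ^ 2 :=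
    intervalIntegral.integral_nonneg hle fun u _ => sq_nonneg _
  constructor
  · have : (G.n - ε) * b * (κ * LL κ ^ 2) = (G.n - ε) * (b * (κ * LL κ ^ 2)) := by ring
    rw [this]
    have h8 : (G.n - ε) * (b * (κ * LL κ ^ 2)) ≤ (G.n - c * G.n - ε / 4) * (b * (κ * LL κ ^ 2)) :=
      mul_le_mul_of_nonneg_right (by linarith) hbQ.le
    linarith
  · have : (G.n + ε) * b * (κ * LL κ ^ 2) = (G.n + ε) * (b * (κ * LL κ ^ 2)) := by ring
    rw [this]
    calc (∫ u in (0 : ℝ)..(c * b * LL κ), G.Dl κ u ^ 2) + W ≤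
          6 * (c * G.n) * (b * (κ * LL κ ^ 2)) + (G.n - c * G.n + ε / 4) * (b * (κ * LL κ ^ 2)) :=
            add_le_add w3 w2
      _ = (6 * (c * G.n) + (G.n - c * G.n + ε / 4)) * (b * (κ * LL κ ^ 2)) := by ring
      _ ≤ _ := mul_le_mul_of_nonneg_right (by linarith) hbQ.le

/-- **the crude bound** -/
theorem crude (h4 : S_SSR) (hG : G.Good) (hC : G.Crude) : ∃ C : ℝ, 0 < C ∧ ∀ b : ℝ, 1 ≤ b →
    ∀ᶠ κ : ℝ in 𝓝[>] 0, ∫ u in (0 : ℝ)..(b * LL κ), G.Dl κ u ^ 2 ≤ C * b * (κ * LL κ ^ 2) := by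
  have hn : 0 < G.n := by linarith [hG.n_pos]
  have hn1 := hG.n_pos
  obtain ⟨K0, hK0, hR0⟩ := id hC
  set K : ℝ := max K0 G.n with hKdef
  have hK1 : K0 ≤ K := le_max_left _ _
  have hK2 : G.n ≤ K := le_max_right _ _
  have hR : ∀ᶠ T : ℝ in atTop, ∀ a : ℝ, 0 < a → a ≤ 1 → a * G.RR a T ≤ K := by
    filter_upwards [hR0] with T hT a ha ha1
    exact (hT a ha ha1).trans hK1
  have hKp : 0 < K := by linarith
  refine ⟨3 * (3 * G.n ^ 2 / 2 + 15 * K * G.n / 4 + 1), by positivity, fun b hb => ?_⟩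
  have hb0 : 0 < b := by linarith
  set a : ℝ := 1 / (3 * (G.n * b)) with ha
  have ha0 : 0 < a := by positivity
  have hnb : 1 ≤ G.n * b := by nlinarith
  have ha3 : 3 * a ≤ 1 := by
    rw [ha]
    have : 3 * (1 / (3 * (G.n * b))) = 1 / (G.n * b) := by field_simp
    rw [this, div_le_one (by positivity)]
    exact hnb
  have ha1 : a * G.n ≤ 1 := by
    rw [ha]
    have : 1 / (3 * (G.n * b)) * G.n = 1 / (3 * b) := by field_simp
    rw [this, div_le_one (by positivity)]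
    linarith
  filter_upwards [h4 G hG hC K 1 hK2 hR a 1 ha0 ha1 ha3 one_pos, ev_pos, ev_L 1] with κ k1 hκ hL
  have hLp : 0 < LL κ := by linarith
  have hQ : 0 < κ * LL κ ^ 2 := by positivity
  have h1 := int_le_SS hG hκ hLp ha0 hb0.le (by
    have : 2 * a * b = 2 / (3 * G.n) := by rw [ha]; field_simp
    rw [this, div_le_one (by positivity)]; linarith)
  have h2 : (G.n / a - G.n ^ 2) / 2 + 5 * (K - G.n) / (4 * a) + 1 ≤
      (3 * G.n ^ 2 / 2 + 15 * K * G.n / 4 + 1) * b := by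
    have e : 1 / a = 3 * (G.n * b) := by rw [ha]; field_simp
    have e2 : 5 * (K - G.n) / (4 * a) = 5 * (K - G.n) / 4 * (1 / a) := by field_simp
    have e3 : G.n / a = G.n * (1 / a) := by ring
    rw [e2, e3, e]
    have f1 : 0 ≤ G.n ^ 2 := by positivity
    have f2 : 0 ≤ G.n * G.n * b := by positivity
    have f3 : (G.n * (3 * (G.n * b)) - G.n ^ 2) / 2 ≤ 3 * G.n ^ 2 / 2 * b := by
      have : (G.n * (3 * (G.n * b)) - G.n ^ 2) / 2 = 3 * G.n ^ 2 / 2 * b - G.n ^ 2 / 2 := by ring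
      rw [this]; linarith
    have f4 : 5 * (K - G.n) / 4 * (3 * (G.n * b)) ≤ 15 * K * G.n / 4 * b := by
      have : 5 * (K - G.n) / 4 * (3 * (G.n * b)) = 15 * K * G.n / 4 * b - 15 / 4 * (G.n * G.n * b) := by ring
      rw [this]; linarith
    nlinarith
  calc ∫ u in (0 : ℝ)..(b * LL κ), G.Dl κ u ^ 2 ≤ 3 * G.SS κ (a / LL κ) := h1
    _ ≤ 3 * (((G.n / a - G.n ^ 2) / 2 + 5 * (K - G.n) / (4 * a) + 1) * (κ * LL κ ^ 2)) :=
        mul_le_mul_of_nonneg_left k1 (by norm_num)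
    _ ≤ 3 * ((3 * G.n ^ 2 / 2 + 15 * K * G.n / 4 + 1) * b * (κ * LL κ ^ 2)) := by gcongr
    _ = _ := by ring

theorem t_AV (h1 : S_T1b) (h2 : S_KIL) (h3 : S_PAIR) (h4 : S_SSR) : S_AV := fun _G hG hC =>
  ⟨fun hE _ε hε => av_asymp h1 h2 h3 h4 hG hC hE hε, crude h4 hG hC⟩

end Pool.Agent.Q275.GX
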