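import Pool.Agent.Q260.GX.Spec

set_option autoImplicit false

/-!
# Project GX: integrability of the error for the primes
-/

namespace Pool.Agent.Q275.GX

open MeasureTheory Filter Topology Set
open Pool.Agent.Q260.GX
open Pool.Agent.Q260.GM (pk sx LL kk h0 kT)

variable {G : Dat}

lemma Dl_meas (hG : G.Good) (κ : ℝ) : Measurable (G.Dl κ) := by
  unfold Dat.Dl
  exact (by fun_prop : Measurable fun u : ℝ => Real.exp (-(u / 2))).mul
    ((hG.phm.comp (measurable_id.add_const κ)).sub hG.phm)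

lemma ph_sq_int (hG : G.Good) {x : ℝ} (hx : 0 < x) :
    IntegrableOn (fun w => G.ph w ^ 2 * Real.exp (-((1 + 2 * x) * w))) (Ioi 0) := hG.l2 _ (by linarith)

lemma ph_sq_shift (hG : G.Good) {κ x : ℝ} (hκ : 0 < κ) (hx : 0 < x) :
    IntegrableOn (fun u => G.ph (u + κ) ^ 2 * Real.exp (-((1 + 2 * x) * (u + κ)))) (Ioi 0) := by
  have h1 : IntegrableOn (fun w : ℝ => G.ph w ^ 2 * Real.exp (-((1 + 2 * x) * w))) (Ioi κ) :=
    (ph_sq_int hG hx).mono_set (Ioi_subset_Ioi hκ.le)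
  have h2 := ((measurePreserving_add_right volume κ).integrableOn_comp_preimage
    (MeasurableEquiv.addRight κ).measurableEmbedding (s := Ioi κ)
    (f := fun w : ℝ => G.ph w ^ 2 * Real.exp (-((1 + 2 * x) * w)))).2 h1
  rw [preimage_add_const_Ioi, sub_self] at h2
  exact h2

lemma Dl_sq_int (hG : G.Good) {κ x : ℝ} (hκ : 0 < κ) (hx : 0 < x) :
    IntegrableOn (fun u => G.Dl κ u ^ 2 * Real.exp (-(2 * x * u))) (Ioi 0) := by
  have h1 := ((ph_sq_shift hG hκ hx).const_mul (2 * Real.exp ((1 + 2 * x) * κ))).add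
    ((ph_sq_int hG hx).const_mul 2)
  refine h1.mono' ?_ (ae_of_all _ fun u => ?_)
  · exact (((Dl_meas hG κ).pow_const 2).mul (by fun_prop)).aestronglyMeasurable
  · rw [Real.norm_eq_abs, abs_of_nonneg (by positivity)]
    show G.Dl κ u ^ 2 * Real.exp (-(2 * x * u)) ≤ 2 * Real.exp ((1 + 2 * x) * κ) *
      (G.ph (u + κ) ^ 2 * Real.exp (-((1 + 2 * x) * (u + κ)))) + 2 * (G.ph u ^ 2 * Real.exp (-((1 + 2 * x) * u)))
    have e1 : Real.exp ((1 + 2 * x) * κ) * Real.exp (-((1 + 2 * x) * (u + κ))) =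
        Real.exp (-((1 + 2 * x) * u)) := by
      rw [← Real.exp_add]; congr 1; ring
    have e2 : G.Dl κ u ^ 2 * Real.exp (-(2 * x * u)) =
        Real.exp (-((1 + 2 * x) * u)) * (G.ph (u + κ) - G.ph u) ^ 2 := by
      unfold Dat.Dl
      rw [mul_pow, ← Real.exp_nat_mul]
      have : Real.exp (-((1 + 2 * x) * u)) = Real.exp (((2 : ℕ) : ℝ) * -(u / 2)) * Real.exp (-(2 * x * u)) := by
        rw [← Real.exp_add]; congr 1; push_cast; ring
      rw [this]; ring
    have e3 : 2 * Real.exp ((1 + 2 * x) * κ) * (G.ph (u + κ) ^ 2 * Real.exp (-((1 + 2 * x) * (u + κ)))) =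
        2 * (Real.exp (-((1 + 2 * x) * u)) * G.ph (u + κ) ^ 2) := by
      rw [← e1]; ring
    rw [e2, e3]
    have h4 : (G.ph (u + κ) - G.ph u) ^ 2 ≤ 2 * G.ph (u + κ) ^ 2 + 2 * G.ph u ^ 2 := by
      nlinarith [sq_nonneg (G.ph (u + κ) + G.ph u)]
    have h5 := mul_le_mul_of_nonneg_left h4 (Real.exp_pos (-((1 + 2 * x) * u))).le
    linarith

/-- the square of the error is interval integrable on the positive half line -/
lemma Dl_sq_ii (hG : G.Good) {κ a b : ℝ} (hκ : 0 < κ) (ha : 0 ≤ a) (hb : 0 ≤ b) :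
    IntervalIntegrable (fun w => G.Dl κ w ^ 2) volume a b := by
  have key : ∀ c : ℝ, 0 ≤ c → IntervalIntegrable (fun w => G.Dl κ w ^ 2) volume 0 c := by
    intro c hc
    have h1 : IntegrableOn (fun u => G.Dl κ u ^ 2 * Real.exp (-(2 * 1 * u))) (Ioc 0 c) :=
      (Dl_sq_int hG hκ one_pos).mono_set Ioc_subset_Ioi_self
    have h2 : IntervalIntegrable (fun u => G.Dl κ u ^ 2 * Real.exp (-(2 * 1 * u))) volume 0 c :=
      (intervalIntegrable_iff_integrableOn_Ioc_of_le hc).2 h1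
    have h3 := h2.mul_continuousOn (g := fun u => Real.exp (2 * 1 * u)) (by fun_prop)
    refine h3.congr (fun u _ => ?_)
    show G.Dl κ u ^ 2 * Real.exp (-(2 * 1 * u)) * Real.exp (2 * 1 * u) = G.Dl κ u ^ 2
    rw [mul_assoc, ← Real.exp_add, neg_add_cancel, Real.exp_zero, mul_one]
  exact (key a ha).symm.trans (key b hb)

lemma SS_nonneg (κ x : ℝ) : 0 ≤ G.SS κ x := setIntegral_nonneg measurableSet_Ioi fun u _ => by positivity

lemma int_le_SS (hG : G.Good) {κ a b : ℝ} (hκ : 0 < κ) (hL : 0 < LL κ) (ha : 0 < a) (hb : 0 ≤ b)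
    (hab : 2 * a * b ≤ 1) : ∫ u in (0 : ℝ)..(b * LL κ), G.Dl κ u ^ 2 ≤ 3 * G.SS κ (a / LL κ) := by
  have hi := Dl_sq_int hG hκ (x := a / LL κ) (by positivity)
  have hle : (0 : ℝ) ≤ b * LL κ := by positivity
  have m3 : Real.exp 1 ≤ 3 := by
    have := Real.exp_one_lt_d9
    linarith
  calc ∫ u in (0 : ℝ)..(b * LL κ), G.Dl κ u ^ 2 ≤
        ∫ u in (0 : ℝ)..(b * LL κ), Real.exp 1 * (G.Dl κ u ^ 2 * Real.exp (-(2 * (a / LL κ) * u))) := by
        refine intervalIntegral.integral_mono_on hle (Dl_sq_ii hG hκ le_rfl hle)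
          (((Dl_sq_ii hG hκ le_rfl hle).mul_continuousOn (by fun_prop)).const_mul _) fun u hu => ?_
        have e : Real.exp 1 * (G.Dl κ u ^ 2 * Real.exp (-(2 * (a / LL κ) * u))) =
            G.Dl κ u ^ 2 * Real.exp (1 + -(2 * (a / LL κ) * u)) := by
          rw [Real.exp_add]; ring
        rw [e]
        have h4 : 0 ≤ 1 + -(2 * (a / LL κ) * u) := by
          have h5 : 2 * (a / LL κ) * u ≤ 2 * (a / LL κ) * (b * LL κ) :=
            mul_le_mul_of_nonneg_left hu.2 (by positivity)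
          have h6 : 2 * (a / LL κ) * (b * LL κ) = 2 * a * b := by field_simp
          linarith
        have h5 : 1 ≤ Real.exp (1 + -(2 * (a / LL κ) * u)) := Real.one_le_exp h4
        nlinarith [sq_nonneg (G.Dl κ u)]
    _ = Real.exp 1 * ∫ u in (0 : ℝ)..(b * LL κ), G.Dl κ u ^ 2 * Real.exp (-(2 * (a / LL κ) * u)) :=
        intervalIntegral.integral_const_mul _ _
    _ ≤ Real.exp 1 * G.SS κ (a / LL κ) := by
        apply mul_le_mul_of_nonneg_left _ (Real.exp_pos _).le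
        unfold Dat.SS
        rw [intervalIntegral.integral_of_le hle]
        exact setIntegral_mono_set hi (ae_of_all _ fun u => by positivity) Ioc_subset_Ioi_self.eventuallyLE
    _ ≤ 3 * G.SS κ (a / LL κ) := mul_le_mul_of_nonneg_right m3 (SS_nonneg _ _)

/-- the normalised measure on the side of the primes -/
noncomputable def nk (G : Dat) (κ : ℝ) : Measure ℝ :=
  (volume.restrict (Ioi 0)).withDensity fun α => ENNReal.ofReal (G.Dl κ (α * LL κ) ^ 2 / (κ * LL κ))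

lemma nk_meas (hG : G.Good) (κ : ℝ) : Measurable fun α : ℝ => G.Dl κ (α * LL κ) ^ 2 / (κ * LL κ) :=
  (((Dl_meas hG κ).comp (measurable_id.mul_const _)).pow_const 2).div_const _

lemma nk_integral (hG : G.Good) {κ : ℝ} (hκ : 0 < κ) (hL : 0 < LL κ) (f : ℝ → ℝ) :
    ∫ y, f y ∂(nk G κ) = ∫ y in Ioi (0 : ℝ), f y * (G.Dl κ (y * LL κ) ^ 2 / (κ * LL κ)) := by
  unfold nk
  rw [integral_withDensity_eq_integral_toReal_smul₀ (nk_meas hG κ).ennreal_ofReal.aemeasurable
    (ae_of_all _ fun x => ENNReal.ofReal_lt_top)]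
  refine integral_congr_ae (ae_of_all _ fun x => ?_)
  simp only [smul_eq_mul]
  rw [ENNReal.toReal_ofReal (by positivity), mul_comm]

lemma nk_integrable (hG : G.Good) {κ : ℝ} (hκ : 0 < κ) (hL : 0 < LL κ) {f : ℝ → ℝ}
    (h : IntegrableOn (fun y => f y * (G.Dl κ (y * LL κ) ^ 2 / (κ * LL κ))) (Ioi 0)) :
    Integrable f (nk G κ) := by
  unfold nk
  rw [integrable_withDensity_iff_integrable_smul₀' (nk_meas hG κ).ennreal_ofReal.aemeasurable
    (ae_of_all _ fun x => ENNReal.ofReal_lt_top)]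
  refine Integrable.congr (h : Integrable (fun y => f y * (G.Dl κ (y * LL κ) ^ 2 / (κ * LL κ)))
    (volume.restrict (Ioi 0))) (ae_of_all _ fun x => ?_)
  simp only [smul_eq_mul]
  rw [ENNReal.toReal_ofReal (by positivity), mul_comm]

lemma nk_neg (κ : ℝ) : nk G κ (Iio 0) = 0 := by
  unfold nk
  rw [withDensity_apply _ measurableSet_Iio, Measure.restrict_restrict measurableSet_Iio]
  have : Iio (0 : ℝ) ∩ Ioi 0 = ∅ := by
    ext x; simp only [mem_inter_iff, mem_Iio, mem_Ioi, mem_empty_iff_false, iff_false]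
    intro h; linarith [h.1, h.2]
  rw [this]
  simp

lemma nk_Icc (hG : G.Good) {κ : ℝ} (hκ : 0 < κ) (hL : 0 < LL κ) {c d : ℝ} (hc : 0 < c) (hcd : c ≤ d) :
    (nk G κ).real (Icc c d) = (∫ u in (c * LL κ)..(d * LL κ), G.Dl κ u ^ 2) / (κ * LL κ ^ 2) := by
  have h1 : (nk G κ).real (Icc c d) = ∫ y, (Icc c d).indicator (fun _ => (1 : ℝ)) y ∂(nk G κ) := by
    rw [integral_indicator measurableSet_Icc, setIntegral_const]
    simp
  rw [h1, nk_integral hG hκ hL]
  have h2 : (fun y => (Icc c d).indicator (fun _ => (1 : ℝ)) y * (G.Dl κ (y * LL κ) ^ 2 / (κ * LL κ))) =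
      (Icc c d).indicator (fun y => G.Dl κ (y * LL κ) ^ 2 / (κ * LL κ)) := by
    funext y
    by_cases h : y ∈ Icc c d
    · rw [indicator_of_mem h, indicator_of_mem h, one_mul]
    · rw [indicator_of_notMem h, indicator_of_notMem h, zero_mul]
  have h3 : Ioi (0 : ℝ) ∩ Icc c d = Icc c d := inter_eq_right.2 fun y hy => lt_of_lt_of_le hc hy.1
  rw [h2, setIntegral_indicator measurableSet_Icc, h3, integral_Icc_eq_integral_Ioc,
    ← intervalIntegral.integral_of_le hcd, intervalIntegral.integral_div,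
    intervalIntegral.integral_comp_mul_right (fun u => G.Dl κ u ^ 2) hL.ne', smul_eq_mul]
  field_simp

lemma nk_exp (hG : G.Good) {κ : ℝ} (hκ : 0 < κ) (hL : 0 < LL κ) {a : ℝ} (ha : 0 < a) :
    Integrable (fun y => Real.exp (-(a * y))) (nk G κ) ∧
    ∫ y, Real.exp (-(a * y)) ∂(nk G κ) = G.SS κ (a / 2 / LL κ) / (κ * LL κ ^ 2) := by
  have hx : 0 < a / 2 / LL κ := by positivity
  have h1 := Dl_sq_int hG hκ hx
  have e : ∀ y : ℝ, Real.exp (-(a * y)) * (G.Dl κ (y * LL κ) ^ 2 / (κ * LL κ)) =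
      (fun u => (κ * LL κ)⁻¹ * (G.Dl κ u ^ 2 * Real.exp (-(2 * (a / 2 / LL κ) * u)))) (y * LL κ) := by
    intro y
    show _ = (κ * LL κ)⁻¹ * (G.Dl κ (y * LL κ) ^ 2 * Real.exp (-(2 * (a / 2 / LL κ) * (y * LL κ))))
    have : 2 * (a / 2 / LL κ) * (y * LL κ) = a * y := by field_simp
    rw [this]
    ring
  have hc := integral_comp_mul_right_Ioi (fun u => (κ * LL κ)⁻¹ * (G.Dl κ u ^ 2 * Real.exp (-(2 * (a / 2 / LL κ) * u))))
    0 hL
  have hci := (integrableOn_Ioi_comp_mul_right_iff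
    (fun u => (κ * LL κ)⁻¹ * (G.Dl κ u ^ 2 * Real.exp (-(2 * (a / 2 / LL κ) * u)))) 0 hL).2 (by
      rw [zero_mul]; exact h1.const_mul _)
  constructor
  · apply nk_integrable hG hκ hL
    simp only [e]
    exact hci
  · rw [nk_integral hG hκ hL]
    simp only [e]
    rw [hc, zero_mul, integral_const_mul, smul_eq_mul]
    unfold Dat.SS
    field_simp

end Pool.Agent.Q275.GX
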