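import Pool.Agent.Q275.GX.Bas

set_option autoImplicit false

/-!
# Project GX: from `κ` to `T`
-/

namespace Pool.Agent.Q275.GX

open MeasureTheory Filter Topology Set
open Pool.Agent.Q260.GX
open Pool.Agent.Q260.GM (pk sx LL kk h0 kT norm_lim Tk Tk_tendsto Tk_pos kT_Tk kT_tendsto LL_kT kT_pos ev_pos ev_L)
open Pool.Agent.Y749.Rig (nT)

variable {G : Dat}

lemma k_of_T (hG : G.Good) {b M δ : ℝ} (hb : 1 ≤ b) (hM : 0 ≤ M) (hδ : 0 < δ)
    (h : ∀ᶠ T : ℝ in atTop, G.VV T (b + 1) ≤ M) :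
    ∀ᶠ κ : ℝ in 𝓝[>] 0, ∫ u in (0 : ℝ)..(b * LL κ), G.Dl κ u ^ 2 ≤ (1 + δ) * M * (κ * LL κ ^ 2) := by
  have h1 := norm_lim.comp Tk_tendsto
  have hlt : 1 / (1 + δ) < 1 := by rw [div_lt_one (by positivity)]; linarith
  filter_upwards [Tk_tendsto.eventually h, h1.eventually (le_mem_nhds hlt), ev_pos,
    Tk_tendsto.eventually_ge_atTop (Real.exp (max 1 b))] with κ k1 k2 hκ k3
  set T : ℝ := Tk κ with hT
  have hTp : 0 < T := Tk_pos hκ
  have hlT : max 1 b ≤ Real.log T := by rwa [Real.le_log_iff_exp_le hTp]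
  have hlT1 : 1 ≤ Real.log T := (le_max_left _ _).trans hlT
  have hlTb : b ≤ Real.log T := (le_max_right _ _).trans hlT
  have hT1 : 1 ≤ T := by
    have h3 := Real.add_one_le_exp (max 1 b)
    have h4 : 1 ≤ max 1 b := le_max_left _ _
    linarith
  have hkT : kT T = κ := kT_Tk hκ
  obtain ⟨l1, l2⟩ := LL_kT hT1
  rw [hkT] at l1 l2
  have hLp : 0 < LL κ := by linarith
  have hlTp : 0 < Real.log T := by linarith
  have k2' : 1 / (1 + δ) ≤ T / Real.log T ^ 2 * (κ * LL κ ^ 2) := by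
    have : 1 / (1 + δ) ≤ T / Real.log T ^ 2 * (kT T * LL (kT T) ^ 2) := k2
    rwa [hkT] at this
  have hT1' : 1 / T ≤ 1 := by rw [div_le_one hTp]; exact hT1
  set J : ℝ := ∫ u in (0 : ℝ)..((b + 1) * Real.log T), G.Dl κ u ^ 2 with hJ
  have k1' : T / Real.log T ^ 2 * J ≤ M := by
    have : T / Real.log T ^ 2 * (∫ u in (0 : ℝ)..((b + 1) * Real.log T), G.Dl (kT T) u ^ 2) ≤ M := k1
    rwa [hkT] at this
  have hmono : ∫ u in (0 : ℝ)..(b * LL κ), G.Dl κ u ^ 2 ≤ J := by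
    refine intervalIntegral.integral_mono_interval le_rfl ?_ ?_
      (ae_of_all _ fun u => sq_nonneg _) (Dl_sq_ii hG hκ le_rfl (by positivity))
    · positivity
    · have : b * LL κ ≤ b * (Real.log T + 1) := mul_le_mul_of_nonneg_left (by linarith) (by linarith)
      linarith
  refine hmono.trans ?_
  have hq : 0 < Real.log T ^ 2 / T := by positivity
  have e1 : J = T / Real.log T ^ 2 * J * (Real.log T ^ 2 / T) := by field_simp
  rw [e1]
  have h2 : Real.log T ^ 2 / T ≤ (1 + δ) * (κ * LL κ ^ 2) := by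
    rw [div_le_iff₀ (by positivity)] at k2'
    have h3 := mul_le_mul_of_nonneg_right k2' hq.le
    have e2 : T / Real.log T ^ 2 * (κ * LL κ ^ 2) * (1 + δ) * (Real.log T ^ 2 / T) =
      (1 + δ) * (κ * LL κ ^ 2) := by field_simp
    rw [e2, one_mul] at h3
    exact h3
  calc T / Real.log T ^ 2 * J * (Real.log T ^ 2 / T) ≤ M * (Real.log T ^ 2 / T) :=
        mul_le_mul_of_nonneg_right k1' hq.le
    _ ≤ M * ((1 + δ) * (κ * LL κ ^ 2)) := mul_le_mul_of_nonneg_left h2 hM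
    _ = _ := by ring

lemma T_of_k_up (hG : G.Good) {b M δ : ℝ} (hb : 1 ≤ b) (hM : 0 ≤ M) (hδ : 0 < δ)
    (h : ∀ᶠ κ : ℝ in 𝓝[>] 0, ∫ u in (0 : ℝ)..(b * LL κ), G.Dl κ u ^ 2 ≤ M * (κ * LL κ ^ 2)) :
    ∀ᶠ T : ℝ in atTop, G.VV T b ≤ (1 + δ) * M := by
  filter_upwards [kT_tendsto.eventually h, norm_lim.eventually (ge_mem_nhds (show (1 : ℝ) < 1 + δ by linarith)),
    eventually_ge_atTop (3 : ℝ)] with T k1 k2 hT
  have hT1 : 1 ≤ T := by linarith
  have hTp : 0 < T := by linarith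
  have hlp : 0 < Real.log T := Real.log_pos (by linarith)
  have hk := kT_pos hTp
  obtain ⟨l1, l2⟩ := LL_kT hT1
  have hmono : ∫ u in (0 : ℝ)..(b * Real.log T), G.Dl (kT T) u ^ 2 ≤
      ∫ u in (0 : ℝ)..(b * LL (kT T)), G.Dl (kT T) u ^ 2 := by
    refine intervalIntegral.integral_mono_interval le_rfl (by positivity) ?_
      (ae_of_all _ fun u => sq_nonneg _) (Dl_sq_ii hG hk le_rfl ?_)
    · exact mul_le_mul_of_nonneg_left l1 (by linarith)
    · have : 0 ≤ LL (kT T) := by linarith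
      positivity
  have hq : 0 < T / Real.log T ^ 2 := by positivity
  unfold Dat.VV
  calc T / Real.log T ^ 2 * (∫ u in (0 : ℝ)..(b * Real.log T), G.Dl (kT T) u ^ 2) ≤
        T / Real.log T ^ 2 * (M * (kT T * LL (kT T) ^ 2)) :=
        mul_le_mul_of_nonneg_left (hmono.trans k1) hq.le
    _ = T / Real.log T ^ 2 * (kT T * LL (kT T) ^ 2) * M := by ring
    _ ≤ _ := mul_le_mul_of_nonneg_right k2 hM

lemma T_of_k_low (hG : G.Good) {b M δ : ℝ} (hb : 1 ≤ b) (hM : 0 ≤ M) (hδ : 0 < δ)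
    (h : ∀ᶠ κ : ℝ in 𝓝[>] 0, M * (κ * LL κ ^ 2) ≤ ∫ u in (0 : ℝ)..(b * LL κ), G.Dl κ u ^ 2) :
    ∀ᶠ T : ℝ in atTop, (1 - δ) * M ≤ G.VV T (b + 1) := by
  filter_upwards [kT_tendsto.eventually h, norm_lim.eventually (le_mem_nhds (show 1 - δ < (1 : ℝ) by linarith)),
    eventually_ge_atTop (3 : ℝ), Real.tendsto_log_atTop.eventually_ge_atTop b] with T k1 k2 hT hlb
  have hT1 : 1 ≤ T := by linarith
  have hTp : 0 < T := by linarith
  have hlp : 0 < Real.log T := Real.log_pos (by linarith)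
  have hk := kT_pos hTp
  obtain ⟨l1, l2⟩ := LL_kT hT1
  have hT1' : 1 / T ≤ 1 := by rw [div_le_one hTp]; exact hT1
  have hLp : 0 < LL (kT T) := by linarith
  have hmono : ∫ u in (0 : ℝ)..(b * LL (kT T)), G.Dl (kT T) u ^ 2 ≤
      ∫ u in (0 : ℝ)..((b + 1) * Real.log T), G.Dl (kT T) u ^ 2 := by
    refine intervalIntegral.integral_mono_interval le_rfl (by positivity) ?_
      (ae_of_all _ fun u => sq_nonneg _) (Dl_sq_ii hG hk le_rfl (by positivity))
    have : b * LL (kT T) ≤ b * (Real.log T + 1) := mul_le_mul_of_nonneg_left (by linarith) (by linarith)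
    linarith
  have hq : 0 < T / Real.log T ^ 2 := by positivity
  unfold Dat.VV
  calc (1 - δ) * M ≤ T / Real.log T ^ 2 * (kT T * LL (kT T) ^ 2) * M := mul_le_mul_of_nonneg_right k2 hM
    _ = T / Real.log T ^ 2 * (M * (kT T * LL (kT T) ^ 2)) := by ring
    _ ≤ _ := mul_le_mul_of_nonneg_left (k1.trans hmono) hq.le

lemma AUk_of_AU (hG : G.Good) {η : ℝ} (hη : 0 ≤ η) (h : G.AU η) : G.AUk η := by
  have hn : 0 < G.n := by linarith [hG.n_pos]
  intro ε hε
  obtain ⟨b1, hb11, hb1⟩ := h (ε / 4) (by positivity)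
  set δ : ℝ := min 1 (ε / (8 * (G.n + η + ε))) with hδ
  have hδ0 : 0 < δ := by positivity
  have hδ1 : δ ≤ 1 := min_le_left _ _
  have hδ2 : δ * (G.n + η + ε) ≤ ε / 8 := by
    have : δ ≤ ε / (8 * (G.n + η + ε)) := min_le_right _ _
    rw [le_div_iff₀ (by positivity)] at this
    linarith
  refine ⟨max 1 (max b1 (1 / δ)), le_max_left _ _, fun b hb => ?_⟩
  have hb1' : 1 ≤ b := (le_max_left _ _).trans hb
  have hbb : b1 ≤ b := ((le_max_left _ _).trans (le_max_right _ _)).trans hb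
  have hbδ : 1 ≤ δ * b := by
    have : 1 / δ ≤ b := ((le_max_right _ _).trans (le_max_right _ _)).trans hb
    rw [div_le_iff₀ hδ0] at this
    linarith
  filter_upwards [k_of_T hG hb1' (M := (G.n + η + ε / 4) * (b + 1)) (by positivity) hδ0
    (hb1 (b + 1) (by linarith)), ev_pos, ev_L 1] with κ k1 hκ hL
  have hLp : 0 < LL κ := by linarith
  refine k1.trans ?_
  apply mul_le_mul_of_nonneg_right _ (by positivity)
  have h2 : b + 1 ≤ (1 + δ) * b := by linarith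
  have h3 : (1 + δ) * ((G.n + η + ε / 4) * (b + 1)) ≤ (1 + δ) * ((G.n + η + ε / 4) * ((1 + δ) * b)) := by
    gcongr
  refine h3.trans ?_
  have h4 : (1 + δ) * ((G.n + η + ε / 4) * (1 + δ)) ≤ G.n + η + ε := by
    have h5 : (1 + δ) * (1 + δ) ≤ 1 + 3 * δ := by nlinarith
    have h6 : (G.n + η + ε / 4) * ((1 + δ) * (1 + δ)) ≤ (G.n + η + ε / 4) * (1 + 3 * δ) :=
      mul_le_mul_of_nonneg_left h5 (by positivity)
    have h7 : δ * (G.n + η + ε / 4) ≤ ε / 8 := by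
      refine le_trans ?_ hδ2
      exact mul_le_mul_of_nonneg_left (by linarith) hδ0.le
    nlinarith
  calc (1 + δ) * ((G.n + η + ε / 4) * ((1 + δ) * b)) = (1 + δ) * ((G.n + η + ε / 4) * (1 + δ)) * b := by ring
    _ ≤ _ := mul_le_mul_of_nonneg_right h4 (by linarith)

lemma AL_of (hG : G.Good)
    (h : ∀ ε : ℝ, 0 < ε → ∃ b0 : ℝ, 1 ≤ b0 ∧ ∀ b : ℝ, b0 ≤ b → ∀ᶠ κ : ℝ in 𝓝[>] 0,
      (G.n - ε) * b * (κ * LL κ ^ 2) ≤ ∫ u in (0 : ℝ)..(b * LL κ), G.Dl κ u ^ 2 ∧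
      ∫ u in (0 : ℝ)..(b * LL κ), G.Dl κ u ^ 2 ≤ (G.n + ε) * b * (κ * LL κ ^ 2)) : G.AL := by
  have hn1 := hG.n_pos
  have hn : 0 < G.n := by linarith
  intro ε hε
  set δ : ℝ := min (1 / 2) (ε / (4 * (G.n + 2))) with hδ
  have hδ0 : 0 < δ := by positivity
  have hδ1 : δ ≤ 1 / 2 := min_le_left _ _
  have hδ2 : δ * (G.n + 2) ≤ ε / 4 := by
    have : δ ≤ ε / (4 * (G.n + 2)) := min_le_right _ _
    rw [le_div_iff₀ (by positivity)] at this
    linarith
  obtain ⟨b1, hb1, h1⟩ := h δ hδ0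
  refine ⟨max (b1 + 1) (1 / δ), by linarith [le_max_left (b1 + 1) (1 / δ)], fun b hb => ?_⟩
  have hbb : b1 + 1 ≤ b := (le_max_left _ _).trans hb
  have hbδ : 1 ≤ δ * b := by
    have : 1 / δ ≤ b := (le_max_right _ _).trans hb
    rw [div_le_iff₀ hδ0] at this
    linarith
  have hb0 : 0 < b := by linarith
  have hu := T_of_k_up hG (b := b) (M := (G.n + δ) * b) (δ := δ) (by linarith) (by positivity) hδ0 (by
    filter_upwards [h1 b (by linarith)] with κ k1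
    exact k1.2)
  have hl := T_of_k_low hG (b := b - 1) (M := (G.n - δ) * (b - 1)) (δ := δ) (by linarith)
    (mul_nonneg (by linarith) (by linarith)) hδ0 (by
    filter_upwards [h1 (b - 1) (by linarith)] with κ k1
    exact k1.1)
  have hδn : 0 < δ * G.n := by positivity
  filter_upwards [hu, hl] with T k1 k2
  rw [sub_add_cancel] at k2
  have e1 : (1 + δ) * ((G.n + δ) * b) ≤ G.n * b + ε * b := by
    have h5 : (1 + δ) * (G.n + δ) ≤ G.n + ε := by nlinarith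
    have := mul_le_mul_of_nonneg_right h5 hb0.le
    linarith
  have e2 : G.n * b - ε * b ≤ (1 - δ) * ((G.n - δ) * (b - 1)) := by
    have h3 : (1 - δ) * b ≤ b - 1 := by linarith
    have h4 : (1 - δ) * ((G.n - δ) * ((1 - δ) * b)) ≤ (1 - δ) * ((G.n - δ) * (b - 1)) := by
      have : 0 ≤ 1 - δ := by linarith
      have : 0 ≤ G.n - δ := by linarith
      gcongr
    refine le_trans ?_ h4
    have h5 : G.n - ε ≤ (1 - δ) * ((G.n - δ) * (1 - δ)) := by
      have h6 : 1 - 2 * δ ≤ (1 - δ) * (1 - δ) := by nlinarith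
      have h7 : (G.n - δ) * (1 - 2 * δ) ≤ (G.n - δ) * ((1 - δ) * (1 - δ)) :=
        mul_le_mul_of_nonneg_left h6 (by linarith)
      have h8 : G.n - ε ≤ (G.n - δ) * (1 - 2 * δ) := by nlinarith [mul_pos hδ0 hδ0]
      have e : (1 - δ) * ((G.n - δ) * (1 - δ)) = (G.n - δ) * ((1 - δ) * (1 - δ)) := by ring
      rw [e]
      exact h8.trans h7
    have := mul_le_mul_of_nonneg_right h5 hb0.le
    have e : (1 - δ) * ((G.n - δ) * ((1 - δ) * b)) = (1 - δ) * ((G.n - δ) * (1 - δ)) * b := by ring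
    rw [e]
    linarith
  rw [abs_le]
  constructor <;> linarith

theorem t_KT : S_KT := fun _G hG =>
  ⟨fun _η hη h => AUk_of_AU hG hη h, AL_of hG, fun ⟨C, hC, h⟩ =>
    ⟨2 * C, by positivity, fun b hb => by
      have hb0 : 0 < b := by linarith
      filter_upwards [T_of_k_up hG hb (M := C * b) (δ := 1) (by positivity) one_pos (h b hb)] with T k1
      refine k1.trans (le_of_eq ?_)
      ring⟩⟩

end Pool.Agent.Q275.GX
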